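import Pool.Agent.H500.HC.Stm
import Pool.Agent.H253.HC.BadC

/-! Project HC of helper500, part A4: `S_Bad`. -/

set_option autoImplicit false

namespace Pool.Agent.H253.HC.Bad

theorem main : Pool.Agent.H500.HC.S_Bad := by
  intro ι V T _ _ _ Vs L M hc hind hno
  exact bad ι V T Vs L M hc hind hno

end Pool.Agent.H253.HC.Bad
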